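import Pool.Agent.Lib.helper11.L2Op
import Pool.Agent.Lib.helper11.L2Def
import Pool.Agent.Lib.helper11.CubeBranchAlg

set_option autoImplicit false

namespace Pool.Agent.Results.MP_3f5b22_an.CubeRootBranch

open Polynomial Pool.Agent.Lib.H11L2Def

/-- Vertices of the universal cover of the graph with two vertices joined by three parallel
edges `0, 1, 2`: non-backtracking edge words from a base vertex (last step first). -/
abbrev W : Type := {l : List (Fin 3) // l.IsChain (· ≠ ·)}

/-- One step along an edge of colour `i`: cancel the letter `i` or add it. -/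
def stepL (i : Fin 3) : List (Fin 3) → List (Fin 3)
  | [] => [i]
  | x :: l => if x = i then l else i :: x :: l

lemma stepL_chain (i : Fin 3) {l : List (Fin 3)} (h : l.IsChain (· ≠ ·)) :
    (stepL i l).IsChain (· ≠ ·) := by
  rcases l with _ | ⟨x, l⟩
  · simp [stepL]
  · simp only [stepL]
    split_ifs with hx
    · exact h.tail
    · exact List.IsChain.cons_cons (Ne.symm hx) h

/-- The neighbour of `w` in the tree along the edge of colour `i`. -/
def nb (i : Fin 3) (w : W) : W := ⟨stepL i w.1, stepL_chain i w.2⟩

/-- The base vertex of the tree. -/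
def root : W := ⟨[], List.IsChain.nil⟩

/-- The edge weights `√2, 1, 1`. -/
noncomputable def wt (i : Fin 3) : ℝ := if i = 0 then Real.sqrt 2 else 1

/-- The operator `H - z`. -/
noncomputable def shift (H : L2 W →L[ℂ] L2 W) (z : ℂ) : L2 W →L[ℂ] L2 W := H - z • 1

/-- The Green's function `⟨δ_y, (H - z)⁻¹ δ_y⟩` at the base vertex `y`. -/
noncomputable def green (H : L2 W →L[ℂ] L2 W) (z : ℂ) : ℂ :=
  (Ring.inverse (shift H z) (delta root)).val root

/-- The function field `ℂ(z)[w] / (P)` of a polynomial `P(z, w)`. -/
abbrev FunField (P : ℂ[X][X]) : Type := AdjoinRoot (P.map (algebraMap ℂ[X] (RatFunc ℂ)))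

/-- Some point over `z = 0` of the normalisation (a maximal ideal over `(z)` of the integral
closure of `ℂ[z]` in `L`) has ramification index at least `3`. -/
def RamifiedThree (L : Type) [CommRing L] [Algebra ℂ[X] L] : Prop :=
  ∃ 𝔓 : Ideal (integralClosure ℂ[X] L), 𝔓.IsMaximal ∧ 𝔓.LiesOver (Ideal.span {(X : ℂ[X])}) ∧
    3 ≤ Ideal.ramificationIdx' (Ideal.span {(X : ℂ[X])}) 𝔓

open Pool.Agent.Lib.H11L2Op Pool.Agent.Lib.H11CubeBranch

noncomputable abbrev LL := lp (fun _ : W => ℂ) 2

lemma nb_invol (i : Fin 3) : Function.Involutive (nb i) := by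
  rintro ⟨l, hl⟩
  apply Subtype.ext
  change stepL i (stepL i l) = l
  rcases l with _ | ⟨x, _ | ⟨y, l⟩⟩
  · simp [stepL]
  · by_cases h : x = i <;> simp [stepL, h]
  · have hxy : x ≠ y := (List.isChain_cons_cons.1 hl).1
    by_cases h : x = i
    · subst h; simp [stepL, hxy.symm]
    · simp [stepL, h]

def stepR (i : Fin 3) : List (Fin 3) → List (Fin 3)
  | [] => [i]
  | [x] => if x = i then [] else [x, i]
  | x :: y :: l => x :: stepR i (y :: l)

lemma stepR_chain (i : Fin 3) : ∀ {l : List (Fin 3)}, l.IsChain (· ≠ ·) →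
    (stepR i l).IsChain (· ≠ ·)
  | [], _ => by simp [stepR]
  | [x], _ => by by_cases h : x = i <;> simp [stepR, h]
  | [x, y], h => by
      have hxy : x ≠ y := (List.isChain_cons_cons.1 h).1
      by_cases h : y = i
      · simp [stepR, h]
      · simp [stepR, h, hxy]
  | x :: y :: z :: l, h => by
      have h1 := List.isChain_cons_cons.1 h
      have h2 := stepR_chain i h1.2
      simp only [stepR] at h2 ⊢
      exact List.IsChain.cons_cons h1.1 h2

lemma stepR_invol (i : Fin 3) : ∀ {l : List (Fin 3)}, l.IsChain (· ≠ ·) → stepR i (stepR i l) = l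
  | [], _ => by simp [stepR]
  | [x], _ => by
      by_cases h : x = i
      · simp [stepR, h]
      · simp [stepR, h]
  | [x, y], h => by
      have hxy : x ≠ y := (List.isChain_cons_cons.1 h).1
      by_cases h : y = i
      · subst h; simp [stepR, hxy]
      · simp [stepR, h]
  | x :: y :: z :: l, h => by
      have h1 := List.isChain_cons_cons.1 h
      have h2 := stepR_invol i h1.2
      simp only [stepR] at h2 ⊢
      rw [h2]

lemma step_comm (i j : Fin 3) : ∀ l : List (Fin 3), stepL j (stepR i l) = stepR i (stepL j l)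
  | [] => by
      by_cases h : i = j
      · simp [stepL, stepR, h]
      · simp [stepL, stepR, h, Ne.symm h]
  | [x] => by
      by_cases h : x = i <;> by_cases h' : x = j
      · subst h; subst h'; simp [stepL, stepR]
      · subst h; simp [stepL, stepR, h', Ne.symm h']
      · subst h'; simp [stepL, stepR, h]
      · simp [stepL, stepR, h, h']
  | x :: y :: l => by
      by_cases h : x = j <;> simp [stepL, stepR, h]

def tau (i : Fin 3) (w : W) : W := ⟨stepR i w.1, stepR_chain i w.2⟩

lemma tau_invol (i : Fin 3) : Function.Involutive (tau i) :=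
  fun w => Subtype.ext (stepR_invol i w.2)

lemma tau_nb (i j : Fin 3) (w : W) : tau i (nb j w) = nb j (tau i w) :=
  Subtype.ext (step_comm i j w.1).symm

def sig (w : W) : W := ⟨w.1.map (Equiv.swap 1 2), by
  rw [List.isChain_map]
  exact w.2.imp fun a b h h' => h ((Equiv.swap (1 : Fin 3) 2).injective h')⟩

lemma sig_invol : Function.Involutive sig := by
  intro w
  apply Subtype.ext
  simp [sig, Function.comp_def]

lemma sig_nb (j : Fin 3) (w : W) : sig (nb j w) = nb (Equiv.swap 1 2 j) (sig w) := by
  apply Subtype.ext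
  obtain ⟨l, hl⟩ := w
  rcases l with _ | ⟨x, l⟩
  · simp [sig, nb, stepL]
  · by_cases h : x = j <;> simp [sig, nb, stepL, h]

lemma exists_comp (e : W → W) (he : Function.Injective e) :
    ∃ U : LL →L[ℂ] LL, ∀ u w, U u w = u (e w) := by
  obtain ⟨U, hU, -⟩ := exists_op (LinearMap.funLeft ℂ ℂ e) 1 zero_le_one (fun f => by
    simp only [one_pow, ENNReal.ofReal_one, one_mul]
    exact ENNReal.tsum_comp_le_tsum_of_injective he (fun x => ENNReal.ofReal (‖f x‖ ^ 2)))
  exact ⟨U, hU⟩

lemma comp_sa (e : W → W) (he : Function.Involutive e) (U : LL →L[ℂ] LL)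
    (hU : ∀ u w, U u w = u (e w)) : IsSelfAdjoint U := by
  rw [ContinuousLinearMap.isSelfAdjoint_iff_isSymmetric]
  intro u v
  change inner ℂ (U u) v = inner ℂ u (U v)
  rw [lp.inner_eq_tsum, lp.inner_eq_tsum, ← he.toPerm.tsum_eq]
  refine tsum_congr fun w => ?_
  rw [hU, hU, Function.Involutive.coe_toPerm, he w]

lemma exists_cut (T : Set W) : ∃ U : LL →L[ℂ] LL, ∀ u w, U u w = T.indicator u w := by
  let L : (W → ℂ) →ₗ[ℂ] (W → ℂ) :=
    { toFun := fun f => T.indicator f
      map_add' := fun f g => Set.indicator_add T f g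
      map_smul' := fun c f => by
        ext w
        by_cases h : w ∈ T <;> simp [h] }
  obtain ⟨U, hU, -⟩ := exists_op L 1 zero_le_one (fun f => by
    simp only [one_pow, ENNReal.ofReal_one, one_mul]
    refine ENNReal.tsum_le_tsum fun w => ENNReal.ofReal_le_ofReal ?_
    change ‖T.indicator f w‖ ^ 2 ≤ _
    by_cases h : w ∈ T <;> simp [h])
  exact ⟨U, hU⟩

def one (i : Fin 3) : W := nb i root

lemma nb_mem {i j : Fin 3} {w : W} (h0 : w ≠ root) (h1 : w ≠ one i) :
    (nb j w).1.getLast? = some i ↔ w.1.getLast? = some i := by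
  obtain ⟨l, hl⟩ := w
  rcases l with _ | ⟨x, _ | ⟨y, l⟩⟩
  · exact absurd rfl h0
  · have hx : x ≠ i := by
      rintro rfl
      exact h1 rfl
    by_cases h : x = j
    · subst h; simp [nb, stepL, hx]
    · simp [nb, stepL, hx, h]
  · by_cases h : x = j <;> simp [nb, stepL, h]

open Classical in
lemma key (H : LL →L[ℂ] LL) (hH : ∀ u w, H u w = ∑ i, (wt i : ℂ) * u (nb i w)) (z : ℂ)
    (hz : IsUnit (H - z • 1)) :
    ∃ (u : LL) (p x : ℂ), (H - z • 1) u = lp.single 2 root 1 ∧ u root = green H z ∧
      p ^ 2 - p - 2 * green H z ^ 2 = 0 ∧ x ^ 2 - x - green H z ^ 2 = 0 ∧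
        p + 2 * x - z * green H z = 1 := by
  set A := H - z • 1 with hA
  have hAw : ∀ (u : LL) (w : W), A u w = ∑ i, (wt i : ℂ) * u (nb i w) - z * u w := by
    intro u w
    rw [← hH]
    rfl
  have hinj : ∀ v v' : LL, (∀ w, A v w = A v' w) → v = v' := by
    intro v v' h
    have h1 : A v = A v' := lp.ext (funext h)
    have h2 : (Ring.inverse A * A) v = (Ring.inverse A * A) v' :=
      congrArg (Ring.inverse A : LL →L[ℂ] LL) h1
    rwa [Ring.inverse_mul_cancel _ hz] at h2
  set u : LL := (Ring.inverse A) (lp.single 2 root 1) with hu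
  have hAu : A u = lp.single 2 root 1 := by
    rw [hu, ← ContinuousLinearMap.mul_apply, Ring.mul_inverse_cancel _ hz]; rfl
  have hAu' : ∀ w, ∑ i, (wt i : ℂ) * u (nb i w) - z * u w = if w = root then 1 else 0 := by
    intro w
    rw [← hAw, hAu, lp.single_apply, Pi.single_apply]
  have hd : (delta root : L2 W) = (lp.single 2 root 1 : LL) :=
    congrArg (fun d : DecidableEq W => @lp.single W (fun _ => ℂ) _ d 2 root 1)
      (Subsingleton.elim _ _)
  have hG : u root = green H z := by
    unfold green
    rw [hd]
    rfl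
  have quad : ∀ i, u (one i) = -(wt i * u root) * u root + wt i * u (one i) * u (one i) := by
    intro i
    obtain ⟨U, hU⟩ := exists_comp (tau i) (tau_invol i).injective
    obtain ⟨Q, hQ⟩ := exists_cut {w | w.1.getLast? = some i}
    have t1 : tau i root = one i := rfl
    have t2 : tau i (one i) = root := by rw [← t1, tau_invol]
    have hU' : ∀ w, A (U u) w = if w = one i then 1 else 0 := by
      intro w
      rw [hAw]
      simp only [hU, tau_nb]
      rw [hAu']
      congr 1
      apply propext
      constructor
      · intro h; rw [← t1, ← h, tau_invol]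
      · rintro rfl; exact t2
    have hne : one i ≠ root := by
      intro h
      have := congrArg Subtype.val h
      simp [one, nb, root, stepL] at this
    have main := hinj (Q u) (-(wt i * u root : ℂ) • U u + (wt i * u (one i) : ℂ) • u) (by
      intro w
      rw [map_add, map_smul, map_smul, lp.coeFn_add, lp.coeFn_smul, lp.coeFn_smul, Pi.add_apply,
        Pi.smul_apply, Pi.smul_apply, hU', hAu, lp.single_apply, Pi.single_apply, hAw]
      simp only [hQ, smul_eq_mul]
      by_cases h0 : w = root
      · subst h0
        rw [if_neg hne.symm, if_pos rfl, Set.indicator_of_notMem (by simp [root]),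
          Finset.sum_eq_single i]
        · rw [Set.indicator_of_mem (by simp [nb, root, stepL])]
          simp [one]
        · intro j _ hj
          rw [Set.indicator_of_notMem (by simp [nb, root, stepL, hj]), mul_zero]
        · simp
      · by_cases h1 : w = one i
        · subst h1
          have e := hAu' (one i)
          rw [if_neg h0, ← Finset.add_sum_erase _ _ (Finset.mem_univ i)] at e
          have e1 : nb i (one i) = root := nb_invol i root
          rw [if_pos rfl, if_neg h0, Set.indicator_of_mem (by simp [one, nb, root, stepL]),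
            ← Finset.add_sum_erase _ _ (Finset.mem_univ i), e1,
            Set.indicator_of_notMem (by simp [root])]
          rw [e1] at e
          have e2 : ∑ j ∈ Finset.univ.erase i, (wt j : ℂ) *
              Set.indicator {w : W | w.1.getLast? = some i} u (nb j (one i)) =
              ∑ j ∈ Finset.univ.erase i, (wt j : ℂ) * u (nb j (one i)) := by
            refine Finset.sum_congr rfl fun j hj => ?_
            have hj' : i ≠ j := (Finset.ne_of_mem_erase hj).symm
            rw [Set.indicator_of_mem (by simp [one, nb, root, stepL, hj'])]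
          rw [e2]
          linear_combination e
        · have e := hAu' w
          rw [if_neg h0] at e
          rw [if_neg h0, if_neg h1]
          by_cases h2 : w.1.getLast? = some i
          · rw [Set.indicator_of_mem (show w ∈ {w : W | w.1.getLast? = some i} from h2)]
            have e2 : ∀ j, Set.indicator {w : W | w.1.getLast? = some i} u (nb j w) = u (nb j w) :=
              fun j => Set.indicator_of_mem
                (show nb j w ∈ {w : W | w.1.getLast? = some i} from (nb_mem h0 h1).2 h2) _
            simp only [e2]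
            linear_combination e
          · rw [Set.indicator_of_notMem (show w ∉ {w : W | w.1.getLast? = some i} from h2)]
            have e2 : ∀ j, Set.indicator {w : W | w.1.getLast? = some i} u (nb j w) = 0 :=
              fun j => Set.indicator_of_notMem
                (show nb j w ∉ {w : W | w.1.getLast? = some i} from
                  fun h => h2 ((nb_mem h0 h1).1 h)) _
            simp [e2])
    have h3 := congrArg (fun v : LL => v (one i)) main
    simp only [lp.coeFn_add, lp.coeFn_smul, Pi.add_apply, Pi.smul_apply, hQ, hU, t2,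
      smul_eq_mul] at h3
    rwa [Set.indicator_of_mem (by simp [one, nb, root, stepL])] at h3
  have symm : u (one 2) = u (one 1) := by
    obtain ⟨U, hU⟩ := exists_comp sig sig_invol.injective
    have s0 : sig root = root := rfl
    have main := hinj (U u) u (by
      intro w
      rw [hAw, hAw, hAu']
      simp only [hU, sig_nb]
      have e := hAu' (sig w)
      have e1 : (sig w = root) ↔ w = root :=
        ⟨fun h => by rw [← sig_invol w, h, s0], fun h => by rw [h, s0]⟩
      rw [Fin.sum_univ_three] at e ⊢
      simp only [e1] at e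
      rw [← e]
      have a0 : Equiv.swap (1 : Fin 3) 2 0 = 0 := by decide
      have a1 : Equiv.swap (1 : Fin 3) 2 1 = 2 := by decide
      have a2 : Equiv.swap (1 : Fin 3) 2 2 = 1 := by decide
      rw [a0, a1, a2]
      simp [wt]
      ring)
    have h3 := congrArg (fun v : LL => v (one 1)) main
    simp only [hU] at h3
    exact h3
  have hs : ((Real.sqrt 2 : ℝ) : ℂ) ^ 2 = 2 := by
    rw [← Complex.ofReal_pow, Real.sq_sqrt (by norm_num)]; simp
  refine ⟨u, (Real.sqrt 2 : ℝ) * u (one 0), u (one 1), hAu, hG, ?_, ?_, ?_⟩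
  · have := quad 0
    simp only [wt, if_pos] at this
    rw [← hG]
    linear_combination (-((Real.sqrt 2 : ℝ) : ℂ)) * this + (u root) ^ 2 * hs
  · have := quad 1
    simp only [wt] at this
    rw [if_neg (by decide)] at this
    rw [← hG]
    push_cast at this
    linear_combination (-1 : ℂ) * this
  · have e := hAu' root
    rw [if_pos rfl, Fin.sum_univ_three] at e
    change _ * u (one 0) + _ * u (one 1) + _ * u (one 2) - _ = _ at e
    rw [symm] at e
    simp only [wt, if_pos] at e
    rw [if_neg (by decide), if_neg (by decide)] at e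
    rw [← hG]
    push_cast at e ⊢
    linear_combination e

theorem result : ∃ H : L2 W →L[ℂ] L2 W,
    (∀ (u : L2 W) (w : W), (H u).val w = ∑ i, (wt i : ℂ) * u.val (nb i w)) ∧
    ∃ P : ℂ[X][X], Irreducible (P.map (algebraMap ℂ[X] (RatFunc ℂ))) ∧
      (∀ z : ℂ, 0 < z.im → IsUnit (shift H z) ∧ P.evalEval z (green H z) = 0) ∧
      RamifiedThree (FunField P) := by
  classical
  have hex := fun i => exists_comp (nb i) (nb_invol i).injective
  choose U hU using hex
  set H : LL →L[ℂ] LL := ∑ i, (wt i : ℂ) • U i with hHdef
  have hH : ∀ u w, H u w = ∑ i, (wt i : ℂ) * u (nb i w) := by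
    intro u w
    rw [hHdef, Fin.sum_univ_three, Fin.sum_univ_three, ← hU, ← hU, ← hU]
    rfl
  have hsa : IsSelfAdjoint H := by
    refine isSelfAdjoint_sum _ fun i _ => ?_
    exact IsSelfAdjoint.smul (Complex.conj_ofReal _) (comp_sa _ (nb_invol i) _ (hU i))
  refine ⟨H, hH, PP, PP_map_irreducible, fun z hz => ?_, ramified⟩
  have hunit : IsUnit (H - z • 1) := by
    have h1 : z ∉ spectrum ℂ H := fun h => hz.ne' (hsa.im_eq_zero_of_mem_spectrum h)
    rw [spectrum.notMem_iff, Algebra.algebraMap_eq_smul_one] at h1
    simpa using h1.neg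
  refine ⟨hunit, ?_⟩
  obtain ⟨u, p, x, hu, hG, e1, e2, e3⟩ := key H hH z hunit
  have hG0 : green H z ≠ 0 := by
    intro h0
    have h1 : inner ℂ u ((H - z • 1) u) = 0 := by
      rw [hu, lp.inner_single_right, hG, h0]; simp
    have h2 : (H - z • 1) u = H u - z • u := rfl
    rw [h2, inner_sub_right, inner_smul_right, inner_self_eq_norm_sq_to_K] at h1
    have h3 : (inner ℂ u (H u)).im = 0 :=
      (ContinuousLinearMap.isSelfAdjoint_iff_isSymmetric.1 hsa).im_inner_self_apply u
    have h4 := congrArg Complex.im h1
    rw [Complex.sub_im, h3] at h4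
    have h5 : (z * ((‖u‖ : ℂ)) ^ 2).im = z.im * ‖u‖ ^ 2 := by
      rw [← Complex.ofReal_pow, Complex.im_mul_ofReal]
    have h6 : z.im * ‖u‖ ^ 2 = 0 := by
      rw [← h5]
      rw [Complex.zero_im, zero_sub, neg_eq_zero] at h4
      exact h4
    have h7 : u = 0 := by
      rcases mul_eq_zero.1 h6 with h | h
      · exact absurd h hz.ne'
      · simpa using h
    rw [h7, map_zero] at hu
    have h8 := congrArg (fun v : LL => v root) hu
    simp [lp.single_apply] at h8
  rw [PP_evalEval]
  set G := green H z
  have hp : p = 1 + z * G - 2 * x := by linear_combination e3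
  subst hp
  have h4 : x * (4 * z * G - 2) = z * G * (1 + z * G) + 2 * G ^ 2 := by
    linear_combination (-1 : ℂ) * e1 + 4 * e2
  apply mul_left_cancel₀ hG0
  linear_combination (4 * z * G - 2) ^ 2 * e2 -
    (z * G * (1 + z * G) + 2 * G ^ 2 + x * (4 * z * G - 2) - (4 * z * G - 2)) * h4

end Pool.Agent.Results.MP_3f5b22_an.CubeRootBranch
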